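import Pool.Agent.Lib.MP_27cb06_lc.H.Stmt

/-!
# The forcing

`L` is a well-order (of type `λ`), `c < m` are elements of `L` (the `κ`-th and the `μ`-th one).

* `Raw L`: partial functions `s` on `L × L` whose values are partial functions `w : L → L` (called pre-names).
* `Good α s`: the size restrictions at height `α`.
* `PCond c m`: the first forcing, a product with supports of size `< κ` over all stages `α` (inaccessible
  cardinals between `κ` and `μ`) of the `Good α` partial functions on `Iio m × Iio m`.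
* `RCond m`: the `Good m` partial functions on `L × L`.
* `e : L → PCond c m` is an enumeration of the first forcing by the elements `z < m`; a pre-name `w` has in
  the extension by the first forcing the value `w z` for the least `z` with `w z ≠ none` such that `e z` is in
  the generic filter (if there is such a `z`).  `Ev e w p b`: `p` forces that this value is `b`.
* `QCond e`: the forcing of the theorem: pairs `(p, r)`; `(p', r') ≤ (p, r)` if `p' ≤ p` and `p'` forces that
  `r'` extends `r`, as partial functions whose values are the values of the pre-names.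
-/

set_option autoImplicit false

namespace Pool.Agent.HG

open Cardinal Set Pool.Agent.CC

universe u v w

section Raw

variable {L : Type u}

/-- partial functions on `L × L`; the values are pre-names -/
abbrev Raw (L : Type u) : Type u := L → L → Option (L → Option L)

/-- `t` extends `s` -/
def Ext (t s : Raw L) : Prop := ∀ x y w, s x y = some w → t x y = some w

/-- `s` and `t` agree on their common domain -/
def Agree (s t : Raw L) : Prop := ∀ x y v w, s x y = some v → t x y = some w → v = w

theorem Ext.refl (s : Raw L) : Ext s s := fun _ _ _ h => h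

theorem Ext.trans {s t r : Raw L} (h : Ext s t) (h' : Ext t r) : Ext s r :=
  fun x y w hw => h x y w (h' x y w hw)

theorem Agree.symm {s t : Raw L} (h : Agree s t) : Agree t s :=
  fun x y v w hv hw => (h x y w v hw hv).symm

theorem Agree.of_ext {s t r : Raw L} (h : Ext r s) (h' : Ext r t) : Agree s t := fun x y v w hv hw => by
  have h1 := h x y v hv
  have h2 := h' x y w hw
  rw [h1] at h2
  exact Option.some.inj h2

open Classical in
/-- the restriction of `s` to the places in `S` -/
noncomputable def cutRaw (S : L → L → Prop) (s : Raw L) : Raw L :=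
  fun x y => if S x y then s x y else none

theorem cutRaw_eq {S : L → L → Prop} {s : Raw L} {x y : L} {w : L → Option L} :
    cutRaw S s x y = some w ↔ S x y ∧ s x y = some w := by
  classical
  unfold cutRaw
  by_cases h : S x y <;> simp [h]

theorem cutRaw_ne {S : L → L → Prop} {s : Raw L} {x y : L} :
    cutRaw S s x y ≠ none ↔ S x y ∧ s x y ≠ none := by
  classical
  unfold cutRaw
  by_cases h : S x y <;> simp [h]

/-- the empty partial function -/
def emptyRaw : Raw L := fun _ _ => none

end Raw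

variable {L : Type u} [LinearOrder L] {c m n : L}

/-- The restrictions at height `α`: a value `w` at `(x, y)` is a partial function from `Iio α` to `Iio x`,
and only takes the value `⊥` (the least element) if `y < α`; there are at most `2 ^ α` places, at most `α`
places `(x, y)` with `y < α`, and there is a common strict bound `ξ < α` of all these `y`. -/
structure Good (α : L) (s : Raw L) : Prop where
  legal : ∀ x y w z b, s x y = some w → w z = some b → z < α ∧ b < x ∧ (y < α → ∀ d, b ≤ d)
  size : #{e : L × L | s e.1 e.2 ≠ none} ≤ 2 ^ #(Iio α)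
  size' : #{e : L × L | e.2 < α ∧ s e.1 e.2 ≠ none} ≤ #(Iio α)
  height : ∃ ξ < α, ∀ x y, y < α → s x y ≠ none → y < ξ

/-- stages: inaccessible cardinals between `κ` and `μ` -/
structure Stage (c m α : L) : Prop where
  lo : c < α
  hi : α < m
  reg : ∀ A : Set L, (∀ a ∈ A, a < α) → #A < #(Iio α) → ∃ b < α, ∀ a ∈ A, a < b
  lim : ∀ a < α, 2 ^ #(Iio a) < #(Iio α)
  init : ∀ a < α, #(Iio a) < #(Iio α)

/-- Conditions of the first forcing. -/
@[ext]
structure PCond (c m : L) where
  f : L → Raw L
  stage : ∀ α x y, f α x y ≠ none → Stage c m α ∧ x < m ∧ y < m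
  good : ∀ α, Stage c m α → Good α (f α)
  supp : #{α : L | ∃ x y, f α x y ≠ none} < #(Iio c)

instance : PartialOrder (PCond c m) where
  le q p := ∀ α, Ext (q.f α) (p.f α)
  le_refl _ _ _ _ _ h := h
  le_trans _ _ _ h₁ h₂ α x y w h := h₁ α x y w (h₂ α x y w h)
  le_antisymm p q h₁ h₂ := by
    refine PCond.ext ?_
    funext α x y
    ext w
    exact ⟨fun h => h₂ α x y w h, fun h => h₁ α x y w h⟩

theorem PCond.le_def {p q : PCond c m} :
    q ≤ p ↔ ∀ α x y w, p.f α x y = some w → q.f α x y = some w := Iff.rfl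

/-- Second components. -/
@[ext]
structure RCond (m : L) where
  f : Raw L
  good : Good m f

instance : PartialOrder (RCond m) where
  le q p := Ext q.f p.f
  le_refl _ _ _ _ h := h
  le_trans _ _ _ h₁ h₂ x y w h := h₁ x y w (h₂ x y w h)
  le_antisymm p q h₁ h₂ := by
    refine RCond.ext ?_
    funext x y
    ext w
    exact ⟨fun h => h₂ x y w h, fun h => h₁ x y w h⟩

theorem RCond.le_def {p q : RCond m} : q ≤ p ↔ ∀ x y w, p.f x y = some w → q.f x y = some w := Iff.rfl

/-- the two conditions have no common extension -/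
def Perp (p q : PCond c m) : Prop := ∀ r ≤ p, ¬ r ≤ q

/-- `p` forces that the value of the pre-name `w` is `b` -/
def Ev (e : L → PCond c m) (w : L → Option L) (p : PCond c m) (b : L) : Prop :=
  ∀ p' ≤ p, ∃ p'' ≤ p', ∃ z, w z = some b ∧ p'' ≤ e z ∧ ∀ z' < z, w z' ≠ none → Perp p'' (e z')

/-- `p` forces that `w` and `w'` have the same value (or both no value) -/
def Same (e : L → PCond c m) (p : PCond c m) (w w' : L → Option L) : Prop :=
  ∀ q ≤ p, ∀ b, Ev e w q b ↔ Ev e w' q b

/-- Conditions of the forcing of the theorem. -/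
structure QCond {c m : L} (e : L → PCond c m) where
  p : PCond c m
  r : RCond m

variable {e : L → PCond c m}

theorem Same.refl (p : PCond c m) (w : L → Option L) : Same e p w w := fun _ _ _ => Iff.rfl

theorem Same.symm {p : PCond c m} {w w' : L → Option L} (h : Same e p w w') : Same e p w' w :=
  fun q hq b => (h q hq b).symm

theorem Same.trans {p : PCond c m} {w w' w'' : L → Option L} (h : Same e p w w')
    (h' : Same e p w' w'') : Same e p w w'' := fun q hq b => (h q hq b).trans (h' q hq b)

theorem Same.mono {p q : PCond c m} {w w' : L → Option L} (h : Same e p w w') (hq : q ≤ p) :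
    Same e q w w' := fun r hr b => h r (hr.trans hq) b

instance : Preorder (QCond e) where
  le q' q := q'.p ≤ q.p ∧ ∀ x y w, q.r.f x y = some w →
    ∃ w', q'.r.f x y = some w' ∧ Same e q'.p w' w
  le_refl q := ⟨le_rfl, fun _ _ w h => ⟨w, h, Same.refl _ _⟩⟩
  le_trans a b d h₁ h₂ := ⟨h₁.1.trans h₂.1, fun x y w h => by
    obtain ⟨w', hw', hs'⟩ := h₂.2 x y w h
    obtain ⟨w'', hw'', hs''⟩ := h₁.2 x y w' hw'
    exact ⟨w'', hw'', hs''.trans (hs'.mono h₁.1)⟩⟩

theorem QCond.le_def {q' q : QCond e} : q' ≤ q ↔ q'.p ≤ q.p ∧ ∀ x y w, q.r.f x y = some w →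
    ∃ w', q'.r.f x y = some w' ∧ Same e q'.p w' w := Iff.rfl

/-- literal extension -/
def Lit (q' q : QCond e) : Prop := q'.p ≤ q.p ∧ q'.r ≤ q.r

theorem Lit.le {q' q : QCond e} (h : Lit q' q) : q' ≤ q :=
  ⟨h.1, fun x y w hw => ⟨w, h.2 x y w hw, Same.refl _ _⟩⟩

theorem Lit.refl (q : QCond e) : Lit q q := ⟨le_rfl, le_rfl⟩

theorem Lit.trans {a b d : QCond e} (h : Lit a b) (h' : Lit b d) : Lit a d :=
  ⟨h.1.trans h'.1, h.2.trans h'.2⟩

/-- strengthen the first component of `q' ≤ q` -/
theorem QCond.le_mk {q' q : QCond e} (h : q' ≤ q) {p : PCond c m} (hp : p ≤ q'.p) {r : RCond m}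
    (hr : q.r = r) {p₀ : PCond c m} (hp₀ : p ≤ p₀) :
    (⟨p, q'.r⟩ : QCond e) ≤ ⟨p₀, r⟩ := by
  subst hr
  refine ⟨hp₀, fun x y w hw => ?_⟩
  obtain ⟨w', hw', hs'⟩ := h.2 x y w hw
  exact ⟨w', hw', hs'.mono hp⟩

/-- The hypotheses on the ultrafilter `U` (a normal ultrafilter which shows that the `m`-th cardinal `μ`
is huge with target the order type of `L`). -/
structure Huge (m : L) (U : Ultrafilter (Set L)) : Prop where
  fine : ∀ x, ∀ᶠ X in (U : Filter (Set L)), x ∈ X
  normal : ∀ f : Set L → L, (∀ᶠ X in (U : Filter (Set L)), f X ∈ X) →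
    ∃ x, ∀ᶠ X in (U : Filter (Set L)), f X = x
  complete : ∀ (ι : Type u) (A : ι → Set L → Prop), #ι < #(Iio m) →
    (∀ i, ∀ᶠ X in (U : Filter (Set L)), A i X) → ∀ᶠ X in (U : Filter (Set L)), ∀ i, A i X
  otp : ∀ᶠ X in (U : Filter (Set L)), Nonempty ((X : Set L) ≃o Iio m)
  unc : ℵ₀ < #(Iio m)
  minit : ∀ a < m, #(Iio a) < #(Iio m)

/-- All hypotheses: `κ = #(Iio c)` is regular, `μ = #(Iio m)` is huge with target `λ = #L`,
`#(Iio n) = (2 ^ μ)⁺`; `μ` and `λ` are inaccessible. -/
structure Setup (c m n : L) (U : Ultrafilter (Set L)) : Prop extends Huge m U where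
  cm : c < m
  mn : m < n
  cinf : ℵ₀ ≤ #(Iio c)
  creg : ∀ A : Set L, (∀ a ∈ A, a < c) → #A < #(Iio c) → ∃ b < c, ∀ a ∈ A, a < b
  cinit : ∀ a < c, #(Iio a) < #(Iio c)
  clt : #(Iio c) < #(Iio m)
  mreg : ∀ A : Set L, (∀ a ∈ A, a < m) → #A < #(Iio m) → ∃ b < m, ∀ a ∈ A, a < b
  mlim : ∀ a < m, 2 ^ #(Iio a) < #(Iio m)
  ninit : ∀ a < n, #(Iio a) ≤ 2 ^ #(Iio m)
  nbig : 2 ^ #(Iio m) < #(Iio n)
  nreg : ∀ A : Set L, (∀ a ∈ A, a < n) → #A ≤ 2 ^ #(Iio m) → ∃ b < n, ∀ a ∈ A, a < b
  linit : ∀ a : L, #(Iio a) < #L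
  lreg : ∀ A : Set L, #A < #L → ∃ b, ∀ a ∈ A, a < b
  llim : ∀ a : L, 2 ^ #(Iio a) < #L

/-- `X ∩ Iio m = Iio α`, and `h` is the increasing enumeration of `X` in order type `Iio m` -/
structure Enum (m : L) (X : Set L) (α : L) (h : L → L) : Prop where
  lt : α < m
  cap : ∀ x, x < m → (x ∈ X ↔ x < α)
  mono : ∀ i j, i < j → j < m → h i < h j
  mem : ∀ i, i < m → h i ∈ X
  surj : ∀ x ∈ X, ∃ i, i < m ∧ h i = x
  fix : ∀ i, i < α → h i = i

/-- `t` is the collapse of the restriction of `r` to `X` (`X` enumerated by `h`, `X ∩ Iio m = Iio α`) -/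
def Img (m α : L) (h : L → L) (t r : Raw L) : Prop :=
  ∀ x, x < m → ∀ y, y < m → (t x y = none ↔ r (h x) (h y) = none) ∧
    ∀ w w', t x y = some w → r (h x) (h y) = some w' → ∀ z, z < α → w' z = (w z).map h

/-- `t` is a `Good α` partial function on `Iio m × Iio m` -/
structure Tee (m α : L) (t : Raw L) : Prop where
  good : Good α t
  dom : ∀ x y, t x y ≠ none → x < m ∧ y < m

/-- all places of `p` are below `β` -/
def InJ (p : PCond c m) (β : L) : Prop := ∀ α x y, p.f α x y ≠ none → α < β ∧ x < β ∧ y < β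

theorem Good.cut {α : L} {s : Raw L} (hs : Good α s) (S : L → L → Prop) : Good α (cutRaw S s) where
  legal x y w z b hw hb := hs.legal x y w z b (cutRaw_eq.1 hw).2 hb
  size := by
    refine (mk_le_mk_of_subset ?_).trans hs.size
    intro _ he
    exact (cutRaw_ne.1 he).2
  size' := by
    refine (mk_le_mk_of_subset ?_).trans hs.size'
    rintro _ ⟨h1, h2⟩
    exact ⟨h1, (cutRaw_ne.1 h2).2⟩
  height := by
    obtain ⟨ξ, hξ, h⟩ := hs.height
    exact ⟨ξ, hξ, fun x y hy hn => h x y hy (cutRaw_ne.1 hn).2⟩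

/-- the restriction of `p` to the places below `β` -/
noncomputable def PCond.cut (p : PCond c m) (β : L) : PCond c m where
  f α := cutRaw (fun x y => α < β ∧ x < β ∧ y < β) (p.f α)
  stage α x y h := p.stage α x y (cutRaw_ne.1 h).2
  good α h := (p.good α h).cut _
  supp := by
    refine lt_of_le_of_lt (mk_le_mk_of_subset ?_) p.supp
    rintro α ⟨x, y, h⟩
    exact ⟨x, y, (cutRaw_ne.1 h).2⟩

theorem PCond.cut_eq {p : PCond c m} {β α x y : L} {w : L → Option L} :
    (p.cut β).f α x y = some w ↔ (α < β ∧ x < β ∧ y < β) ∧ p.f α x y = some w :=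
  cutRaw_eq (S := fun x y => α < β ∧ x < β ∧ y < β)

theorem PCond.le_cut (p : PCond c m) (β : L) : p ≤ p.cut β := fun _ _ _ _ h => (PCond.cut_eq.1 h).2

/-- `q` forces that the generic function has the value `b` at `(x, y)` -/
def Val (q : QCond e) (x y b : L) : Prop := ∃ w, q.r.f x y = some w ∧ Ev e w q.p b

/-- `q` forces that the pre-name at `(x, y)` has no value -/
def NoVal (q : QCond e) (x y : L) : Prop := ∃ w, q.r.f x y = some w ∧ ∀ p ≤ q.p, ∀ b, ¬ Ev e w p b

/-- all conditions of the first forcing are `e z` for some `z < m` -/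
abbrev OntoP (e : L → PCond c m) : Prop := ∀ p, ∃ z, z < m ∧ e z = p

/-- all second components are `eR v` for some `v` -/
abbrev OntoR (eR : L → RCond m) : Prop := ∀ r, ∃ v, eR v = r

end Pool.Agent.HG
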