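import Pool.Agent.Lib.MP_27cb06_lc.Defs

/-!
# The statements, for arbitrary regular `κ`

`L` is a well-order and `c < m < n` are elements of it; `κ`, `κ⁺`, `κ⁺⁺`, `κ⁺⁺⁺` will be the order types of
`Iio c`, `Iio m`, `Iio n`, `L`.
-/

set_option autoImplicit false

namespace Pool.Agent.HG

open Cardinal Set Pool.Agent.CC

universe u v w

section Statement

variable {L : Type u} [LinearOrder L]

/-- there is a family of subsets of `A` with index set `M` which contains all subsets of `A` -/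
def AllSub (A : Type u) (M : Type u) : Prop :=
  ∃ S : Set (M × A), ∀ B : Set A, ∃ i : M, ∀ a : A, (i, a) ∈ S ↔ a ∈ B

/-- For every function `F : [L]^{<ω} → L` there is a set `X ⊆ L` which is closed under `F`, contains all
elements `< c` of `L`, is the bijective image of `Iio m`, and whose part below `n` is contained in the image
of `Iio c` under some function. -/
def Chang (c m n : L) : Prop :=
  ∀ F : Finset L → L, ∃ X : Set L,
    (∀ s : Finset L, (∀ x : s, (x : L) ∈ X) → ∃ b, F s = b ∧ b ∈ X) ∧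
    (∀ x : Iio c, (x : L) ∈ X) ∧
    (∃ g : Iio m → L, (∀ i, ∃ x, g i = x ∧ x ∈ X) ∧ (∀ x, x ∈ X → ∃ i, g i = x) ∧
      ∀ i, ∀ j : Iio i, ¬ ∃ x, g i = x ∧ g j = x) ∧
    ∃ g : Iio c → L, ∀ x : Iio n, (x : L) ∈ X → ∃ i, g i = x

/-- `Iio c`, `Iio m`, `Iio n`, `L` are `κ`, `κ⁺`, `κ⁺⁺`, `κ⁺⁺⁺` for the regular cardinal `κ`, `2 ^ κ = κ⁺`,
`2 ^ κ⁺ ≥ κ⁺⁺⁺`, and the Chang property holds. -/
def Model (c m n : L) : Prop :=
  (∀ a : Iio c, Bounded (Iio a) (Iio c)) ∧
    (Collapsed (Iio c) (Iio m) ∧ Bounded (Iio c) (Iio m)) ∧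
    (Collapsed (Iio m) (Iio n) ∧ Bounded (Iio m) (Iio n)) ∧
    (Collapsed (Iio n) L ∧ Bounded (Iio n) L) ∧
    AllSub (Iio c) (Iio m) ∧ ManySubsets (Iio m) L ∧ Chang c m n

variable (P : Type u) [Preorder P]

/-- `p ⊩ AllSub A M` -/
def fAllSub (A : Type u) (M : Type u) : P → Prop :=
  fEx fun S : SetName P (M × A) => fAll fun B : SetName P A => fEx fun i : M =>
    fAll fun a : A => fIff (S.mem (i, a)) (B.mem a)

/-- `p ⊩ Chang c m n` -/
def fChang (c m n : L) : P → Prop :=
  fAll fun F : FunName P (Finset L) L => fEx fun X : SetName P L =>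
    fAnd (fAll fun s : Finset L => fImp (fAll fun x : s => X.mem (x : L))
      (fEx fun b : L => fAnd (F.app s b) (X.mem b))) <|
    fAnd (fAll fun x : Iio c => X.mem (x : L)) <|
    fAnd (fEx fun g : FunName P (Iio m) L =>
      fAnd (fAll fun i : Iio m => fEx fun x : L => fAnd (g.app i x) (X.mem x)) <|
      fAnd (fAll fun x : L => fImp (X.mem x) (fEx fun i : Iio m => g.app i x))
        (fAll fun i : Iio m => fAll fun j : Iio i => fNot (fEx fun x : L =>
          fAnd (g.app i x) (g.app (j : Iio m) x))))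
    (fEx fun g : FunName P (Iio c) L => fAll fun x : Iio n => fImp (X.mem (x : L))
      (fEx fun i : Iio c => g.app i (x : L)))

/-- `p ⊩ Model c m n` -/
def fModel (c m n : L) : P → Prop :=
  fAnd (fAll fun a : Iio c => fBounded P (Iio a) (Iio c)) <|
    fAnd (fAnd (fCollapsed P (Iio c) (Iio m)) (fBounded P (Iio c) (Iio m))) <|
    fAnd (fAnd (fCollapsed P (Iio m) (Iio n)) (fBounded P (Iio m) (Iio n))) <|
    fAnd (fAnd (fCollapsed P (Iio n) L) (fBounded P (Iio n) L)) <|
    fAnd (fAllSub P (Iio c) (Iio m)) <| fAnd (fManySubsets (Iio m) L P) (fChang P c m n)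

end Statement

end Pool.Agent.HG
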