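import Pool.Agent.Lib.MP_27cb06_lc.Mg.G008
import Pool.Agent.Lib.MP_27cb06_lc.Mg.G002
import Pool.Agent.Lib.MP_27cb06_lc.Mg.G003

/-!
# The two theorems
-/

set_option autoImplicit false

namespace Pool.Agent.HG

open Cardinal Set Pool.Agent.CC

universe u v w

theorem forced (κ μ lam : Cardinal.{u}) (hκ : κ.IsRegular) (hκμ : κ < μ) (hμ : μ < lam)
    (U : Ultrafilter (Set lam.ord.ToType))
    (hU : CardinalInterFilter (U : Filter (Set lam.ord.ToType)) μ)
    (hfine : ∀ x, ∀ᶠ X in (U : Filter (Set lam.ord.ToType)), x ∈ (X : Set lam.ord.ToType))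
    (hnormal : ∀ f : Set lam.ord.ToType → lam.ord.ToType,
      (∀ᶠ X in (U : Filter (Set lam.ord.ToType)), f X ∈ (X : Set lam.ord.ToType)) →
      ∃ x, ∀ᶠ X in (U : Filter (Set lam.ord.ToType)), f X = x)
    (hotp : ∀ᶠ X in (U : Filter (Set lam.ord.ToType)),
      Ordinal.type (fun x y : ↥(X : Set lam.ord.ToType) => x < y) = μ.ord) :
    ∃ c m n : lam.ord.ToType,
      Ordinal.typein (fun x y : lam.ord.ToType => x < y) c = κ.ord ∧
      Ordinal.typein (fun x y : lam.ord.ToType => x < y) m = μ.ord ∧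
      Ordinal.typein (fun x y : lam.ord.ToType => x < y) n = (Order.succ ((2 : Cardinal.{u}) ^ μ)).ord ∧
      ∃ (P : Type u) (_ : Preorder P), Nonempty P ∧ ∀ p : P, fModel P c m n p := by
  obtain ⟨c, m, n, hc, hm, hn, hS⟩ := exists_setup κ μ lam hκ hκμ hμ U hU hfine hnormal hotp
  obtain ⟨e, he⟩ := exists_enumP hS
  obtain ⟨p₀, -⟩ := exists_top hS
  obtain ⟨ξ, hξ⟩ := exists_lt_m hS hS.cm
  refine ⟨c, m, n, hc, hm, hn, QCond e, inferInstance, ⟨⟨p₀, ⟨emptyRaw, good_empty hS.cm⟩⟩⟩,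
    fun q => model_forced hS he q⟩

end Pool.Agent.HG
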