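import Pool.Agent.Lib.MP_27cb06_lc.Mg.G002

/-!
# TASK P3: conditions are bounded; counting and enumeration

PROOF. `PCond.bounded`: the set `Dm` of all `(α, x, y)` with `p.f α x y ≠ none` is the union over `α ∈ supp p`
(`< #(Iio c) < #(Iio m)` of them, all are stages) of sets of size `≤ 2 ^ #(Iio α) < #(Iio m)` (`Good.size`, `mlim`);
`#(Iio m)` is regular (`mreg'`), so `#Dm < #(Iio m)`. The sets of the first, second, third coordinates of `Dm`
have size `< #(Iio m)` and are contained in `Iio m` (`stage`), so they are bounded by `mreg`; take the maximum of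
the three bounds.
`card_InJ`: let `a := max β c < m`, `θ := #(Iio a)`, infinite, `2 ^ θ < #(Iio m)` (`mlim`). A condition `p` with
`InJ p β` is determined by the function `(Iio a)³ → Option (Iio a → Option (Iio a))` of its values (all values `w`
at `(α, x, y)` satisfy: `w z = some b` implies `z < α < β ≤ a`, `b < x < β ≤ a`; so `w` is determined by its
restriction to `Iio a`, with values in `Option (Iio a)`). The number of these functions is
`(θ ^ θ + 1) ^ (θ³) = 2 ^ θ` (`Cardinal.power_self_eq`, `mul_eq_self`, `Cardinal.power_le_power_left`, ...).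
`exists_enumP`: the conditions are the union over `β < m` of the sets `{p | InJ p β}` of size `≤ #(Iio m)`, so there
are at most `#(Iio m)` conditions (and at least one), so there is a surjection from `Iio m`.
-/

set_option autoImplicit false

namespace Pool.Agent.HG

open Cardinal Set Pool.Agent.CC

universe u v w

variable {L : Type u} [LinearOrder L] [WellFoundedLT L] {c m n : L} {U : Ultrafilter (Set L)}

open Classical in
/-- The restriction of a pre-name. -/
private noncomputable def P3_rst (a : L) (w : L → Option L) : Iio a → Option (Iio a) := fun z =>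
  (w z).bind fun b => if h : b < a then some ⟨b, h⟩ else none

omit [WellFoundedLT L] in
private theorem P3_rst_aux {a : L} {w w' : L → Option L} (hw : ∀ z b, w z = some b → z < a ∧ b < a)
    (h : P3_rst a w = P3_rst a w') {z b : L} (hz : w z = some b) : w' z = some b := by
  obtain ⟨h1, h2⟩ := hw z b hz
  have h3 := congrFun h ⟨z, h1⟩
  unfold P3_rst at h3
  simp only [hz, Option.bind_some, dif_pos h2] at h3
  cases h4 : w' z with
  | none =>
    rw [h4] at h3
    simp at h3
  | some b' =>
    rw [h4, Option.bind_some] at h3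
    by_cases h5 : b' < a
    · rw [dif_pos h5] at h3
      have h6 := Option.some.inj h3
      have h7 : b = b' := congrArg Subtype.val h6
      rw [h7]
    · rw [dif_neg h5] at h3
      exact absurd h3 (Option.some_ne_none _)

omit [WellFoundedLT L] in
private theorem P3_rst_inj {a : L} {w w' : L → Option L} (hw : ∀ z b, w z = some b → z < a ∧ b < a)
    (hw' : ∀ z b, w' z = some b → z < a ∧ b < a) (h : P3_rst a w = P3_rst a w') : w = w' := by
  funext z
  ext b
  exact ⟨fun hz => P3_rst_aux hw h hz, fun hz => P3_rst_aux hw' h.symm hz⟩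

theorem PCond.bounded (hS : Setup c m n U) (p : PCond c m) : ∃ β < m, InJ p β := by
  have hreg := mreg' hS
  have hSup : #{α : L | ∃ x y, p.f α x y ≠ none} < #(Iio m) := p.supp.trans hS.clt
  have hbd : ∀ g : L × L → L, (∀ α x y, p.f α x y ≠ none → g (x, y) < m) →
      ∃ β < m, ∀ α x y, p.f α x y ≠ none → g (x, y) < β := by
    intro g hg
    have hcard : #(⋃ i : {α : L | ∃ x y, p.f α x y ≠ none},
        g '' {e : L × L | p.f i e.1 e.2 ≠ none} : Set L) < #(Iio m) := by
      rw [Cardinal.card_iUnion_lt_iff_forall_of_isRegular hreg hSup]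
      rintro ⟨α, x, y, h⟩
      refine lt_of_le_of_lt mk_image_le ?_
      have hst := (p.stage α x y h).1
      exact lt_of_le_of_lt (p.good α hst).size (hS.mlim α hst.hi)
    obtain ⟨β, hβ, hb⟩ := hS.mreg _ (fun a ha => by
      obtain ⟨⟨α, _⟩, ⟨x, y⟩, h, rfl⟩ := mem_iUnion.1 ha
      exact hg α x y h) hcard
    refine ⟨β, hβ, fun α x y h => hb _ ?_⟩
    exact mem_iUnion.2 ⟨⟨α, x, y, h⟩, (x, y), h, rfl⟩
  obtain ⟨β₁, hβ₁, h₁⟩ := hS.mreg _ (fun α (hα : α ∈ {α : L | ∃ x y, p.f α x y ≠ none}) => by
    obtain ⟨x, y, h⟩ := hα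
    exact (p.stage α x y h).1.hi) hSup
  obtain ⟨β₂, hβ₂, h₂⟩ := hbd Prod.fst (fun α x y h => (p.stage α x y h).2.1)
  obtain ⟨β₃, hβ₃, h₃⟩ := hbd Prod.snd (fun α x y h => (p.stage α x y h).2.2)
  exact ⟨max β₁ (max β₂ β₃), max_lt hβ₁ (max_lt hβ₂ hβ₃), fun α x y h =>
    ⟨lt_max_of_lt_left (h₁ α ⟨x, y, h⟩), lt_max_of_lt_right (lt_max_of_lt_left (h₂ α x y h)),
      lt_max_of_lt_right (lt_max_of_lt_right (h₃ α x y h))⟩⟩

theorem card_InJ (hS : Setup c m n U) {β : L} (hβ : β < m) :
    #{p : PCond c m | InJ p β} < #(Iio m) := by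
  have ham : max β c < m := max_lt hβ hS.cm
  have hinf : ℵ₀ ≤ #(Iio (max β c)) :=
    hS.cinf.trans (mk_le_mk_of_subset (Iio_subset_Iio (le_max_right β c)))
  refine lt_of_le_of_lt ?_ (hS.mlim _ ham)
  have hinj : Function.Injective (fun (p : {p : PCond c m | InJ p β})
      (t : Iio (max β c) × Iio (max β c) × Iio (max β c)) =>
      ((p : PCond c m).f t.1 t.2.1 t.2.2).map (P3_rst (max β c))) := by
    have key : ∀ p q : PCond c m, InJ p β → InJ q β →
        (∀ t : Iio (max β c) × Iio (max β c) × Iio (max β c),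
          (p.f t.1 t.2.1 t.2.2).map (P3_rst (max β c)) =
            (q.f t.1 t.2.1 t.2.2).map (P3_rst (max β c))) → q ≤ p := by
      intro p q hp hq h α x y w hw
      have hne : p.f α x y ≠ none := by rw [hw]; exact Option.some_ne_none w
      obtain ⟨h1, h2, h3⟩ := hp α x y hne
      have h1' : α < max β c := lt_max_of_lt_left h1
      have h2' : x < max β c := lt_max_of_lt_left h2
      have h3' : y < max β c := lt_max_of_lt_left h3
      have ht := h (⟨α, h1'⟩, ⟨x, h2'⟩, ⟨y, h3'⟩)
      simp only at ht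
      rw [hw, Option.map_some] at ht
      obtain ⟨w', hw', hr⟩ := Option.map_eq_some_iff.1 ht.symm
      have hne' : q.f α x y ≠ none := by rw [hw']; exact Option.some_ne_none w'
      have e1 := (p.good α (p.stage α x y hne).1).legal
      have e2 := (q.good α (q.stage α x y hne').1).legal
      have : w' = w := P3_rst_inj
        (fun z b hz => ⟨(e2 x y w' z b hw' hz).1.trans h1', (e2 x y w' z b hw' hz).2.1.trans h2'⟩)
        (fun z b hz => ⟨(e1 x y w z b hw hz).1.trans h1', (e1 x y w z b hw hz).2.1.trans h2'⟩) hr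
      rw [hw', this]
    rintro ⟨p, hp⟩ ⟨q, hq⟩ h
    have h' := fun t => congrFun h t
    simp only at h'
    exact Subtype.ext (le_antisymm (key q p hq hp fun t => (h' t).symm) (key p q hp hq h'))
  refine (mk_le_of_injective hinj).trans (le_of_eq ?_)
  have hsucc : ∀ θ : Cardinal.{u}, ℵ₀ ≤ θ → θ + 1 = θ := fun θ hθ => Cardinal.add_one_eq hθ
  have h2θ : ℵ₀ ≤ (2 : Cardinal.{u}) ^ #(Iio (max β c)) := hinf.trans (Cardinal.cantor _).le
  rw [← Cardinal.power_def, Cardinal.mk_option, ← Cardinal.power_def, Cardinal.mk_option,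
    hsucc _ hinf, Cardinal.power_self_eq hinf, hsucc _ h2θ, Cardinal.mk_prod, Cardinal.mk_prod]
  simp only [Cardinal.lift_id]
  rw [Cardinal.mul_eq_self hinf, Cardinal.mul_eq_self hinf, ← Cardinal.power_mul,
    Cardinal.mul_eq_self hinf]

theorem card_PCond (hS : Setup c m n U) : #(PCond c m) ≤ #(Iio m) := by
  have hinf : ℵ₀ ≤ #(Iio m) := hS.unc.le
  have h1 : #(PCond c m) ≤ #(⋃ β : Iio m, {p : PCond c m | InJ p β}) := by
    rw [← Cardinal.mk_univ]
    refine mk_le_mk_of_subset fun p _ => ?_
    obtain ⟨β, hβ, h⟩ := PCond.bounded hS p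
    exact mem_iUnion.2 ⟨⟨β, hβ⟩, h⟩
  refine h1.trans ((Cardinal.mk_iUnion_le_sum_mk).trans ?_)
  refine (Cardinal.sum_le_sum _ (fun _ => #(Iio m)) fun β => (card_InJ hS β.2).le).trans ?_
  rw [Cardinal.sum_const', Cardinal.mul_eq_self hinf]

theorem exists_enumP (hS : Setup c m n U) : ∃ e : L → PCond c m, OntoP e := by
  classical
  obtain ⟨p₀, _⟩ := exists_top hS
  obtain ⟨f⟩ : Nonempty (PCond c m ↪ Iio m) := card_PCond hS
  have hne : Nonempty (PCond c m) := ⟨p₀⟩
  refine ⟨fun z => if h : z ∈ Iio m then Function.invFun f ⟨z, h⟩ else p₀, fun p => ⟨(f p : L), (f p).2, ?_⟩⟩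
  have h : ((f p : Iio m) : L) ∈ Iio m := (f p).2
  exact (dif_pos h).trans (Function.leftInverse_invFun f.injective p)

end Pool.Agent.HG
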