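import Pool.Agent.Lib.MP_27cb06_lc.Mg.G002
import Pool.Agent.Lib.MP_27cb06_lc.Mg.G003

/-!
# TASK R1: unions of second components

PROOF. `RCond.exists_union`: `Good.exists_union` with `α = m`: `#ι < #(Iio m) ≤ 2 ^ #(Iio m)`; `h'`: union of
`#ι ≤ #(Iio m)` sets of size `≤ #(Iio m)`; `hh`: choose `ξ i < m` by `height`; `{ξ i}` has size `< #(Iio m)`, so it is
bounded by some `ξ < m` (`mreg`).
`RCond.exists_union_hi`: apply `Good.exists_union` to the family indexed by `Option ι` (in `Type u`): `none ↦` the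
part of `r₀` at the places with `y < m` (`cutRaw`, `Good.cut`), `some i ↦` the part of `(s i).f` at the places
with `m ≤ y`. Pairwise agreement: the first with the others: disjoint domains. `h'`, `hh`: only `none` has places
with `y < m`: `r₀.good.size'`, `r₀.good.height`. `#(Option ι) ≤ 2 ^ #(Iio m) + 1 = 2 ^ #(Iio m)`.
`RCond.exists_join`: `exists_union` with `ι = ULift Bool`. `RCond.exists_mix`: `exists_join` of `r` and the part of `r'` at the
places where `r` is not defined.
-/

set_option autoImplicit false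

namespace Pool.Agent.HG

open Cardinal Set Pool.Agent.CC

universe u v w

variable {L : Type u} [LinearOrder L] [WellFoundedLT L] {c m n : L} {U : Ultrafilter (Set L)}

theorem RCond.exists_union (hS : Setup c m n U) {ι : Type u} (s : ι → RCond m)
    (hι : #ι < #(Iio m)) (hs : ∀ i j, Agree (s i).f (s j).f) :
    ∃ r : RCond m, ∀ x y w, r.f x y = some w ↔ ∃ i, (s i).f x y = some w := by
  have hinf : ℵ₀ ≤ #(Iio m) := hS.unc.le
  obtain ⟨r, hg, hr⟩ := Good.exists_union (α := m) hinf (fun i => (s i).f) (fun i => (s i).good) hs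
    (hι.le.trans (cantor _).le) (by
      have h1 : ({e : L × L | e.2 < m ∧ ∃ i, (s i).f e.1 e.2 ≠ none} : Set (L × L)) ⊆
          ⋃ i : ι, {e : L × L | e.2 < m ∧ (s i).f e.1 e.2 ≠ none} := by
        rintro e ⟨he, i, hi⟩
        exact mem_iUnion.2 ⟨i, he, hi⟩
      calc #{e : L × L | e.2 < m ∧ ∃ i, (s i).f e.1 e.2 ≠ none}
          ≤ #(⋃ i : ι, {e : L × L | e.2 < m ∧ (s i).f e.1 e.2 ≠ none} : Set (L × L)) :=
            mk_le_mk_of_subset h1
        _ ≤ Cardinal.sum fun i : ι => #{e : L × L | e.2 < m ∧ (s i).f e.1 e.2 ≠ none} :=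
            mk_iUnion_le_sum_mk
        _ ≤ Cardinal.sum fun _ : ι => #(Iio m) := Cardinal.sum_le_sum _ _ fun i => (s i).good.size'
        _ = #ι * #(Iio m) := by rw [Cardinal.sum_const']
        _ ≤ #(Iio m) * #(Iio m) := mul_le_mul_left hι.le _
        _ = #(Iio m) := Cardinal.mul_eq_self hinf) (by
      choose ξ hξ hb using fun i => (s i).good.height
      have hA : #(range ξ) < #(Iio m) := lt_of_le_of_lt mk_range_le hι
      obtain ⟨b, hbm, hb'⟩ := hS.mreg (range ξ) (by
        rintro _ ⟨i, rfl⟩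
        exact hξ i) hA
      refine ⟨b, hbm, fun i x y hy hn => (hb i x y hy hn).trans (hb' _ ⟨i, rfl⟩)⟩)
  exact ⟨⟨r, hg⟩, hr⟩

/-- the union of the parts at the places `(x, y)` with `m ≤ y` of a family of size `≤ 2 ^ #(Iio m)` -/
theorem RCond.exists_union_hi (hS : Setup c m n U) {ι : Type u} (r₀ : RCond m) (s : ι → RCond m)
    (hι : #ι ≤ 2 ^ #(Iio m))
    (hs : ∀ i j x y v w, m ≤ y → (s i).f x y = some v → (s j).f x y = some w → v = w) :
    ∃ r : RCond m, (∀ x y, y < m → r.f x y = r₀.f x y) ∧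
      ∀ x y w, m ≤ y → (r.f x y = some w ↔ ∃ i, (s i).f x y = some w) := by
  have hinf : ℵ₀ ≤ #(Iio m) := hS.unc.le
  let F : Option ι → Raw L := fun o => match o with
    | none => cutRaw (fun _ y => y < m) r₀.f
    | some i => cutRaw (fun _ y => m ≤ y) (s i).f
  have hnone : ∀ x y w, F none x y = some w ↔ y < m ∧ r₀.f x y = some w := fun x y w =>
    cutRaw_eq (S := fun _ y => y < m)
  have hsome : ∀ i x y w, F (some i) x y = some w ↔ m ≤ y ∧ (s i).f x y = some w := fun i x y w =>
    cutRaw_eq (S := fun _ y => m ≤ y)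
  have hne : ∀ o x y, y < m → F o x y ≠ none → r₀.f x y ≠ none := by
    intro o x y hy h
    rcases o with _ | i
    · exact (cutRaw_ne (S := fun _ y => y < m).1 h).2
    · exact absurd (cutRaw_ne (S := fun _ y => m ≤ y).1 h).1 (not_le.2 hy)
  have hg : ∀ o, Good m (F o) := by
    intro o
    rcases o with _ | i
    · exact r₀.good.cut _
    · exact (s i).good.cut _
  have hag : ∀ o o', Agree (F o) (F o') := by
    intro o o' x y v w hv hw
    rcases o with _ | i <;> rcases o' with _ | j
    · rw [hnone] at hv hw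
      exact Option.some.inj (hv.2.symm.trans hw.2)
    · rw [hnone] at hv
      rw [hsome] at hw
      exact absurd hw.1 (not_le.2 hv.1)
    · rw [hnone] at hw
      rw [hsome] at hv
      exact absurd hv.1 (not_le.2 hw.1)
    · rw [hsome] at hv hw
      exact hs i j x y v w hv.1 hv.2 hw.2
  have hinf2 : ℵ₀ ≤ (2 : Cardinal.{u}) ^ #(Iio m) := hinf.trans (cantor _).le
  have hcard : #(Option ι) ≤ 2 ^ #(Iio m) := by
    rw [mk_option]
    calc #ι + 1 ≤ 2 ^ #(Iio m) + 1 := add_le_add_left hι 1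
      _ = 2 ^ #(Iio m) := Cardinal.add_one_eq hinf2
  obtain ⟨r, hgr, hr⟩ := Good.exists_union (α := m) hinf F hg hag hcard (by
      refine (mk_le_mk_of_subset ?_).trans r₀.good.size'
      rintro e ⟨he, o, ho⟩
      exact ⟨he, hne o _ _ he ho⟩) (by
      obtain ⟨ξ, hξ, h⟩ := r₀.good.height
      exact ⟨ξ, hξ, fun o x y hy hn => h x y hy (hne o x y hy hn)⟩)
  refine ⟨⟨r, hgr⟩, fun x y hy => ?_, fun x y w hy => ?_⟩
  · apply Option.ext
    intro w
    show r x y = some w ↔ r₀.f x y = some w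
    rw [hr]
    constructor
    · rintro ⟨o, ho⟩
      rcases o with _ | i
      · exact ((hnone x y w).1 ho).2
      · exact absurd ((hsome i x y w).1 ho).1 (not_le.2 hy)
    · intro h
      exact ⟨none, (hnone x y w).2 ⟨hy, h⟩⟩
  · show r x y = some w ↔ _
    rw [hr]
    constructor
    · rintro ⟨o, ho⟩
      rcases o with _ | i
      · exact absurd hy (not_le.2 ((hnone x y w).1 ho).1)
      · exact ⟨i, ((hsome i x y w).1 ho).2⟩
    · rintro ⟨i, h⟩
      exact ⟨some i, (hsome i x y w).2 ⟨hy, h⟩⟩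

theorem RCond.exists_join (hS : Setup c m n U) {r r' : RCond m} (h : Agree r.f r'.f) :
    ∃ s : RCond m, s ≤ r ∧ s ≤ r' ∧
      ∀ x y w, s.f x y = some w ↔ (r.f x y = some w ∨ r'.f x y = some w) := by
  let s : ULift.{u} Bool → RCond m := fun b => if b.down = true then r else r'
  have hself : ∀ t : Raw L, Agree t t := fun t x y v w hv hw => Option.some.inj (hv.symm.trans hw)
  have hs : ∀ i j, Agree (s i).f (s j).f := by
    rintro ⟨i⟩ ⟨j⟩
    cases i <;> cases j
    · exact hself _
    · exact h.symm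
    · exact h
    · exact hself _
  have hc : #(ULift.{u} Bool) < #(Iio m) := by
    refine lt_of_lt_of_le ?_ hS.unc.le
    exact Cardinal.lt_aleph0_of_finite _
  obtain ⟨t, ht⟩ := RCond.exists_union hS s hc hs
  have hiff : ∀ x y w, t.f x y = some w ↔ (r.f x y = some w ∨ r'.f x y = some w) := by
    intro x y w
    rw [ht]
    constructor
    · rintro ⟨⟨i⟩, hi⟩
      cases i
      · exact Or.inr hi
      · exact Or.inl hi
    · rintro (hi | hi)
      · exact ⟨⟨true⟩, hi⟩
      · exact ⟨⟨false⟩, hi⟩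
  exact ⟨t, fun x y w hw => (hiff x y w).2 (Or.inl hw), fun x y w hw => (hiff x y w).2 (Or.inr hw), hiff⟩

theorem RCond.exists_mix (hS : Setup c m n U) (r r' : RCond m) :
    ∃ s : RCond m, s ≤ r ∧
      ∀ x y w, s.f x y = some w ↔ (r.f x y = some w ∨ (r.f x y = none ∧ r'.f x y = some w)) := by
  let t : RCond m := ⟨cutRaw (fun x y => r.f x y = none) r'.f, r'.good.cut _⟩
  have ht : ∀ x y w, t.f x y = some w ↔ (r.f x y = none ∧ r'.f x y = some w) := fun x y w =>
    cutRaw_eq (S := fun x y => r.f x y = none)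
  have hag : Agree r.f t.f := by
    intro x y v w hv hw
    rw [ht] at hw
    rw [hw.1] at hv
    cases hv
  obtain ⟨s, h1, -, h3⟩ := RCond.exists_join hS hag
  refine ⟨s, h1, fun x y w => ?_⟩
  rw [h3, ht]

end Pool.Agent.HG
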