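import Pool.Agent.Lib.MP_27cb06_lc.H.R1
import Pool.Agent.Lib.MP_27cb06_lc.H.P3

/-!
# TASK R2: counting second components

PROOF. `RCond.cut r β`: the part of `r` at the places `(x, y)` with `x, y < β`. `card_cut`: `r.cut β` is determined by
a function `Iio β × Iio β → Option (Iio m → Option (Iio β))` (the values `w` at `(x, y)` have `w z = some b` only for
`z < m`, `b < x < β`). With `θ := max #(Iio β) #(Iio m) < #L`, infinite (`linit`), the number of these functions is
`≤ (θ ^ θ + 1) ^ (θ * θ) ≤ 2 ^ θ < #L` (`llim'`).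
`RCond.bounded`: `r` has `≤ 2 ^ #(Iio m) < #L` places (`size`, `llim'`), so the coordinates are bounded by `lreg`.
`exists_enumR`: `RCond m` is the union over `β : L` of `{r | all places below β} = {r | r.cut β = r}`, each of size
`< #L`, so `#(RCond m) ≤ #L * #L = #L`; it is nonempty (`good_empty`).
-/

set_option autoImplicit false

namespace Pool.Agent.HG

open Cardinal Set Pool.Agent.CC

universe u v w

variable {L : Type u} [LinearOrder L] [WellFoundedLT L] {c m n : L} {U : Ultrafilter (Set L)}

/-- the restriction to the places below `β` -/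
noncomputable def RCond.cut (r : RCond m) (β : L) : RCond m where
  f := cutRaw (fun x y => x < β ∧ y < β) r.f
  good := r.good.cut _

theorem RCond.cut_eq {r : RCond m} {β x y : L} {w : L → Option L} :
    (r.cut β).f x y = some w ↔ (x < β ∧ y < β) ∧ r.f x y = some w :=
  cutRaw_eq (S := fun x y => x < β ∧ y < β)

theorem RCond.bounded (hS : Setup c m n U) (r : RCond m) :
    ∃ β, ∀ x y, r.f x y ≠ none → x < β ∧ y < β := by
  have hinf : ℵ₀ ≤ #L := (lreg' hS).aleph0_le
  set D : Set (L × L) := {e : L × L | r.f e.1 e.2 ≠ none} with hD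
  have hDc : #D < #L := lt_of_le_of_lt r.good.size (hS.llim m)
  have hA : #((Prod.fst '' D ∪ Prod.snd '' D : Set L)) < #L := by
    refine lt_of_le_of_lt (mk_union_le _ _) ?_
    exact add_lt_of_lt hinf (lt_of_le_of_lt mk_image_le hDc) (lt_of_le_of_lt mk_image_le hDc)
  obtain ⟨b, hb⟩ := hS.lreg _ hA
  refine ⟨b, fun x y h => ⟨hb x (Or.inl ⟨(x, y), h, rfl⟩), hb y (Or.inr ⟨(x, y), h, rfl⟩)⟩⟩

private theorem R2_add {θ a : Cardinal.{u}} (hθ : ℵ₀ ≤ θ) (ha : a ≤ 2 ^ θ) : a + 1 ≤ 2 ^ θ := by
  have h1 : ℵ₀ ≤ 2 ^ θ := hθ.trans (cantor θ).le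
  exact add_le_of_le h1 ha (one_le_aleph0.trans h1)

private theorem R2_pow {θ a b : Cardinal.{u}} (hθ : ℵ₀ ≤ θ) (ha : a ≤ 2 ^ θ) (hb : b ≤ θ) :
    a ^ b ≤ 2 ^ θ := by
  have h0 : (2 : Cardinal.{u}) ^ θ ≠ 0 := (lt_of_lt_of_le aleph0_pos (hθ.trans (cantor θ).le)).ne'
  calc a ^ b ≤ (2 ^ θ) ^ b := power_le_power_right ha
    _ ≤ (2 ^ θ) ^ θ := power_le_power_left h0 hb
    _ = 2 ^ θ := by rw [← power_mul, mul_eq_self hθ]

theorem card_cut (hS : Setup c m n U) (β : L) : #(Set.range fun r : RCond m => r.cut β) < #L := by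
  classical
  let F : (L → Option L) → (Iio m → Option (Iio β)) := fun w z =>
    (w z).bind fun b => if h : b < β then some ⟨b, h⟩ else none
  let code : RCond m → (Iio β → Iio β → Option (Iio m → Option (Iio β))) := fun r x y =>
    (r.f x y).map F
  have hF : ∀ (w w' : L → Option L) (x : L), x < β → (∀ z b, w z = some b → z < m ∧ b < x) →
      (∀ z b, w' z = some b → z < m ∧ b < x) → F w = F w' → w = w' := by
    intro w w' x hx hw hw' h
    funext z
    by_cases hz : z < m
    · have h1 := congrFun h ⟨z, hz⟩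
      change ((w z).bind fun b => if h : b < β then some (⟨b, h⟩ : Iio β) else none) =
        (w' z).bind fun b => if h : b < β then some (⟨b, h⟩ : Iio β) else none at h1
      rcases h2 : w z with _ | b
      · rcases h3 : w' z with _ | b'
        · rfl
        · exfalso
          have h4 : b' < β := (hw' z b' h3).2.trans hx
          rw [h2, h3] at h1
          simp [h4] at h1
      · have h5 : b < β := (hw z b h2).2.trans hx
        rcases h3 : w' z with _ | b'
        · exfalso
          rw [h2, h3] at h1
          simp [h5] at h1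
        · have h4 : b' < β := (hw' z b' h3).2.trans hx
          rw [h2, h3] at h1
          simp only [Option.bind_some, h4, h5, dif_pos, Option.some.injEq] at h1
          have h6 : b = b' := congrArg Subtype.val h1
          rw [h6]
    · have h2 : w z = none := by
        rcases h2 : w z with _ | b
        · rfl
        · exact absurd (hw z b h2).1 hz
      have h3 : w' z = none := by
        rcases h3 : w' z with _ | b
        · rfl
        · exact absurd (hw' z b h3).1 hz
      rw [h2, h3]
  have hinj : ∀ r r' : RCond m, code (r.cut β) = code (r'.cut β) → r.cut β = r'.cut β := by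
    intro r r' h
    refine RCond.ext ?_
    funext x y
    by_cases hxy : x < β ∧ y < β
    · have h1 : ((r.cut β).f x y).map F = ((r'.cut β).f x y).map F :=
        congrFun (congrFun h ⟨x, hxy.1⟩) ⟨y, hxy.2⟩
      rcases h2 : (r.cut β).f x y with _ | w
      · rcases h3 : (r'.cut β).f x y with _ | w'
        · rfl
        · rw [h2, h3] at h1
          simp at h1
      · rcases h3 : (r'.cut β).f x y with _ | w'
        · rw [h2, h3] at h1
          simp at h1
        · rw [h2, h3] at h1
          simp only [Option.map_some, Option.some.injEq] at h1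
          rw [hF w w' x hxy.1 (fun z b hb => ⟨((r.cut β).good.legal x y w z b h2 hb).1,
            ((r.cut β).good.legal x y w z b h2 hb).2.1⟩) (fun z b hb =>
            ⟨((r'.cut β).good.legal x y w' z b h3 hb).1,
              ((r'.cut β).good.legal x y w' z b h3 hb).2.1⟩) h1]
    · have h2 : (r.cut β).f x y = none := by
        rcases h2 : (r.cut β).f x y with _ | w
        · rfl
        · exact absurd (RCond.cut_eq.1 h2).1 hxy
      have h3 : (r'.cut β).f x y = none := by
        rcases h3 : (r'.cut β).f x y with _ | w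
        · rfl
        · exact absurd (RCond.cut_eq.1 h3).1 hxy
      rw [h2, h3]
  have hle : #(Set.range fun r : RCond m => r.cut β) ≤
      #(Iio β → Iio β → Option (Iio m → Option (Iio β))) := by
    refine mk_le_of_injective (f := fun r => code r.1) ?_
    rintro ⟨_, r, rfl⟩ ⟨_, r', rfl⟩ h
    exact Subtype.ext (hinj r r' h)
  refine lt_of_le_of_lt hle ?_
  set θ : Cardinal := max #(Iio β) #(Iio m) with hθ
  have hθL : θ < #L := max_lt (hS.linit β) (hS.linit m)
  have hθ0 : ℵ₀ ≤ θ := hS.unc.le.trans (le_max_right _ _)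
  refine lt_of_le_of_lt ?_ (llim' hS.toHuge hθL)
  have e0 : θ ≤ 2 ^ θ := (cantor θ).le
  have e1 : #(Option (Iio β)) ≤ 2 ^ θ := by
    rw [mk_option]
    exact R2_add hθ0 ((le_max_left _ _).trans e0)
  have e2 : #(Option (Iio m → Option (Iio β))) ≤ 2 ^ θ := by
    rw [mk_option]
    refine R2_add hθ0 ?_
    rw [← power_def]
    exact R2_pow hθ0 e1 (le_max_right _ _)
  rw [← power_def, ← power_def]
  exact R2_pow hθ0 (R2_pow hθ0 e2 (le_max_left _ _)) (le_max_left _ _)

theorem exists_enumR (hS : Setup c m n U) : ∃ eR : L → RCond m, OntoR eR := by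
  classical
  have hinf : ℵ₀ ≤ #L := (lreg' hS).aleph0_le
  have hcut : ∀ r : RCond m, ∃ β : L, r.cut β = r := by
    intro r
    obtain ⟨β, hβ⟩ := r.bounded hS
    refine ⟨β, RCond.ext ?_⟩
    funext x y
    rcases h : r.f x y with _ | w
    · rcases h2 : (r.cut β).f x y with _ | w
      · rfl
      · have h3 := (RCond.cut_eq.1 h2).2
        rw [h] at h3
        exact absurd h3 (by simp)
    · exact RCond.cut_eq.2 ⟨hβ x y (by rw [h]; simp), h⟩
  have huniv : (⋃ β : L, Set.range fun r : RCond m => r.cut β) = Set.univ := by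
    refine Set.eq_univ_of_forall fun r => ?_
    obtain ⟨β, hβ⟩ := hcut r
    exact Set.mem_iUnion.2 ⟨β, r, hβ⟩
  have hcard : #(RCond m) ≤ #L := by
    rw [← mk_univ, ← huniv]
    refine (mk_iUnion_le_sum_mk).trans ?_
    refine (sum_le_sum _ (fun _ => #L) fun β => (card_cut hS β).le).trans ?_
    rw [sum_const', mul_eq_self hinf]
  obtain ⟨f⟩ := hcard
  have hne : Nonempty (RCond m) := ⟨⟨emptyRaw, good_empty hS.cm⟩⟩
  exact ⟨Function.invFun f, Function.invFun_surjective f.injective⟩

end Pool.Agent.HG
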